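import Pool.Agent.Helper60.SB.Defs4
import Pool.Agent.Helper3.SB.F3
import Pool.Agent.Helper96.SB.S
import Pool.Agent.Helper23.SB.L3a
import Pool.Agent.Helper75.SB.L3b
import Pool.Agent.Helper41.SB.L2
import Pool.Agent.Helper41.SB.L4
import Pool.Agent.Helper41.SB.L12
import Pool.Agent.Helper69.SB.L5
import Pool.Agent.Helper1.SB.L9
import Pool.Agent.Helper64.SB.Rosenthal
import Pool.Agent.Helper68.SB.L11

/-!
Module L13 of MP_7fc85e_an (stage 3A): packing in the classes `W`.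
-/

open Finset MeasureTheory
open scoped ENNReal Real
open Pool.Agent.Helper60.SB
open Pool.Agent.Helper23.SB (ub_continuous ub_periodic integral_ub_pow kb_symm kb_continuous)
open Pool.Agent.Helper41.SB (entropy_of_packing card_Shp_lower sum_t_two sum_t_pow)
open Pool.Agent.Helper1.SB (exists_uni_one)
open Pool.Agent.Helper64.SB (rosenthal)
open Pool.Agent.Helper60.SB (tuple_moment)

namespace Pool.Agent.Helper83.SB

/-- the univariate mixed kernel -/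
noncomputable def G1 (u : ℝ → ℝ) (φ : ℕ → ℕ → ℝ → ℝ) (s : ℕ) (x y : ℝ) : ℝ :=
  ∑ c ∈ range (2 ^ s), ub u s c x * φ s c y

/-- the multivariate mixed kernel -/
noncomputable def Zf {d : ℕ} (u : ℝ → ℝ) (φ : ℕ → ℕ → ℝ → ℝ) (Sh : Finset (Fin d → ℕ))
    (y x : Fin d → ℝ) : ℝ :=
  ∑ s ∈ Sh, ∏ j, G1 u φ (s j) (x j) (y j)

section basic

variable {u : ℝ → ℝ} {φ : ℕ → ℕ → ℝ → ℝ}

lemma continuous_G1 (hub : ∀ s c, Continuous (ub u s c)) (hφ : ∀ s c, Continuous (φ s c))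
    (s : ℕ) : Continuous fun p : ℝ × ℝ => G1 u φ s p.1 p.2 := by
  unfold G1
  exact continuous_finsetSum _ fun c _ =>
    ((hub s c).comp continuous_fst).mul ((hφ s c).comp continuous_snd)

lemma continuous_G1_left (hub : ∀ s c, Continuous (ub u s c)) (s : ℕ) (y : ℝ) :
    Continuous fun x : ℝ => G1 u φ s x y := by
  unfold G1
  exact continuous_finsetSum _ fun c _ => (hub s c).mul continuous_const

lemma continuous_G1_right (hφ : ∀ s c, Continuous (φ s c)) (s : ℕ) (x : ℝ) :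
    Continuous fun y : ℝ => G1 u φ s x y := by
  unfold G1
  exact continuous_finsetSum _ fun c _ => continuous_const.mul (hφ s c)

lemma continuous_Zf {d : ℕ} (hub : ∀ s c, Continuous (ub u s c))
    (hφ : ∀ s c, Continuous (φ s c)) (Sh : Finset (Fin d → ℕ)) :
    Continuous fun p : (Fin d → ℝ) × (Fin d → ℝ) => Zf u φ Sh p.1 p.2 := by
  unfold Zf
  refine continuous_finsetSum _ fun s _ => continuous_finsetProd _ fun j _ => ?_
  have h : Continuous fun p : (Fin d → ℝ) × (Fin d → ℝ) => (p.2 j, p.1 j) := by fun_prop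
  exact (continuous_G1 hub hφ (s j)).comp h

lemma continuous_Zf_right {d : ℕ} (hub : ∀ s c, Continuous (ub u s c))
    (Sh : Finset (Fin d → ℕ)) (y : Fin d → ℝ) :
    Continuous fun x : Fin d → ℝ => Zf u φ Sh y x := by
  unfold Zf
  exact continuous_finsetSum _ fun s _ => continuous_finsetProd _ fun j _ =>
    (continuous_G1_left hub (s j) (y j)).comp (continuous_apply j)

lemma continuous_Zf_left {d : ℕ} (hφ : ∀ s c, Continuous (φ s c))
    (Sh : Finset (Fin d → ℕ)) (x : Fin d → ℝ) :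
    Continuous fun y : Fin d → ℝ => Zf u φ Sh y x := by
  unfold Zf
  exact continuous_finsetSum _ fun s _ => continuous_finsetProd _ fun j _ =>
    (continuous_G1_right hφ (s j) (x j)).comp (continuous_apply j)

lemma conv_G1 (r : ℝ) (hr : 0 < r) (hφc : ∀ s c, Continuous (φ s c))
    (hφ1 : ∀ s c, c < 2 ^ s → ∀ x, ∫ y, bern r r (x - y) * φ s c y ∂tor1 = ub u s c x)
    (s : ℕ) (X x : ℝ) :
    ∫ y, bern r r (x - y) * G1 u φ s X y ∂tor1 = kb1 u s X x := by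
  have h1 : ∀ y, bern r r (x - y) * G1 u φ s X y =
      ∑ c ∈ range (2 ^ s), ub u s c X * (bern r r (x - y) * φ s c y) := by
    intro y
    unfold G1
    rw [Finset.mul_sum]
    exact Finset.sum_congr rfl fun c _ => by ring
  simp_rw [h1]
  rw [integral_finsetSum _ fun c _ =>
    (Helper3.SB.integrable_bern_mul r hr _ (hφc s c) x).const_mul _]
  unfold kb1
  refine Finset.sum_congr rfl fun c hc => ?_
  rw [integral_const_mul, hφ1 s c (Finset.mem_range.1 hc) x]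

lemma integrable_FP {d : ℕ} (r : ℝ) (hr : 0 < r) (hφc : ∀ s c, Continuous (φ s c))
    (s : Fin d → ℕ) (X x : Fin d → ℝ) :
    Integrable (fun y => Fker r (x - y) * ∏ j, G1 u φ (s j) (X j) (y j)) (tor d) := by
  have := Helper3.SB.isProb_tor1
  have h1 : (fun y : Fin d → ℝ => Fker r (x - y) * ∏ j, G1 u φ (s j) (X j) (y j)) = fun y =>
      ∏ j, (bern r r (x j - y j) * G1 u φ (s j) (X j) (y j)) := by
    funext y
    unfold Fker
    rw [← Finset.prod_mul_distrib]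
    rfl
  rw [h1]
  unfold tor
  exact Integrable.fintype_prod_dep
    (f := fun j z => bern r r (x j - z) * G1 u φ (s j) (X j) z)
    fun j => Helper3.SB.integrable_bern_mul r hr _ (continuous_G1_right hφc _ _) _

lemma conv_P {d : ℕ} (r : ℝ) (hr : 0 < r) (hφc : ∀ s c, Continuous (φ s c))
    (hφ1 : ∀ s c, c < 2 ^ s → ∀ x, ∫ y, bern r r (x - y) * φ s c y ∂tor1 = ub u s c x)
    (s : Fin d → ℕ) (X x : Fin d → ℝ) :
    ∫ y, Fker r (x - y) * ∏ j, G1 u φ (s j) (X j) (y j) ∂(tor d) =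
      ∏ j, kb1 u (s j) (X j) (x j) := by
  have := Helper3.SB.isProb_tor1
  have h1 : ∀ y : Fin d → ℝ, Fker r (x - y) * ∏ j, G1 u φ (s j) (X j) (y j) =
      ∏ j, (bern r r (x j - y j) * G1 u φ (s j) (X j) (y j)) := by
    intro y
    unfold Fker
    rw [← Finset.prod_mul_distrib]
    rfl
  simp_rw [h1]
  unfold tor
  rw [integral_fintype_prod_eq_prod
    (fun j z => bern r r (x j - z) * G1 u φ (s j) (X j) z)]
  exact Finset.prod_congr rfl fun j _ => conv_G1 r hr hφc hφ1 _ _ _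

lemma integrable_FZ {d : ℕ} (r : ℝ) (hr : 0 < r) (hφc : ∀ s c, Continuous (φ s c))
    (Sh : Finset (Fin d → ℕ)) (X x : Fin d → ℝ) :
    Integrable (fun y => Fker r (x - y) * Zf u φ Sh y X) (tor d) := by
  unfold Zf
  simp_rw [Finset.mul_sum]
  exact integrable_finsetSum _ fun s _ => integrable_FP r hr hφc s X x

lemma conv_Z {d : ℕ} (r : ℝ) (hr : 0 < r) (hφc : ∀ s c, Continuous (φ s c))
    (hφ1 : ∀ s c, c < 2 ^ s → ∀ x, ∫ y, bern r r (x - y) * φ s c y ∂tor1 = ub u s c x)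
    (Sh : Finset (Fin d → ℕ)) (X x : Fin d → ℝ) :
    ∫ y, Fker r (x - y) * Zf u φ Sh y X ∂(tor d) = kb u Sh X x := by
  unfold Zf kb
  simp_rw [Finset.mul_sum]
  rw [integral_finsetSum _ fun s _ => integrable_FP r hr hφc s X x]
  exact Finset.sum_congr rfl fun s _ => conv_P r hr hφc hφ1 s X x

lemma abs_ub_le (hu1 : ∀ t, |u t| ≤ 1) (s c : ℕ) (x : ℝ) : |ub u s c x| ≤ 1 := hu1 _

lemma abs_G1_le (hu1 : ∀ t, |u t| ≤ 1) {C r : ℝ}
    (hφ2 : ∀ (s : ℕ) (t : ℝ), ∑ c ∈ range (2 ^ s), |φ s c t| ≤ C * (2 : ℝ) ^ (r * s))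
    (s : ℕ) (x y : ℝ) : |G1 u φ s x y| ≤ C * (2 : ℝ) ^ (r * s) := by
  refine le_trans ?_ (hφ2 s y)
  unfold G1
  refine (Finset.abs_sum_le_sum_abs _ _).trans (Finset.sum_le_sum fun c _ => ?_)
  rw [abs_mul]
  calc |ub u s c x| * |φ s c y| ≤ 1 * |φ s c y| :=
        mul_le_mul_of_nonneg_right (abs_ub_le hu1 s c x) (abs_nonneg _)
    _ = _ := one_mul _

end basic

/-- `∫ |u| ≤ 1` -/
lemma integral_abs_block (u : ℝ → ℝ) (hu1 : ∀ t, |u t| ≤ 1)
    (hsupp : ∀ t, (t ≤ 1 / 10 ∨ 9 / 10 ≤ t) → u t = 0) : ∫ t, |u t| ≤ 1 := by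
  have h1 : ∫ t, |u t| ≤ ∫ t, (Set.Icc (0:ℝ) 1).indicator (fun _ => (1:ℝ)) t := by
    apply integral_mono_of_nonneg
    · exact Filter.Eventually.of_forall fun t => abs_nonneg _
    · rw [integrable_indicator_iff measurableSet_Icc]
      exact integrableOn_const (by simp)
    · refine Filter.Eventually.of_forall fun t => ?_
      by_cases ht : t ∈ Set.Icc (0:ℝ) 1
      · show |u t| ≤ _
        rw [Set.indicator_of_mem ht]
        exact hu1 t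
      · show |u t| ≤ _
        rw [Set.indicator_of_notMem ht]
        have : u t = 0 := by
          apply hsupp
          by_contra hcon
          push Not at hcon
          exact ht ⟨by linarith [hcon.1], by linarith [hcon.2]⟩
        rw [this, abs_zero]
  refine h1.trans ?_
  rw [integral_indicator measurableSet_Icc]
  simp

section moments

variable {u : ℝ → ℝ} {φ : ℕ → ℕ → ℝ → ℝ}

lemma integral_abs_ub (hu : Continuous u) (hu1 : ∀ t, |u t| ≤ 1)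
    (hsupp : ∀ t, (t ≤ 1 / 10 ∨ 9 / 10 ≤ t) → u t = 0) (s c : ℕ) (hc : c < 2 ^ s) :
    ∫ x, |ub u s c x| ∂tor1 ≤ 1 / 2 ^ s := by
  have h := integral_ub_pow (fun t => |u t|) hu.abs
    (fun t ht => by rw [hsupp t ht, abs_zero]) 1 le_rfl s c hc
  have e1 : ∀ x, ub (fun t => |u t|) s c x ^ 1 = |ub u s c x| := fun x => by
    rw [pow_one]; rfl
  simp_rw [e1, pow_one] at h
  rw [h]
  gcongr
  exact integral_abs_block u hu1 hsupp

lemma integral_abs_G1 (hub : ∀ s c, Continuous (ub u s c)) (hu : Continuous u)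
    (hu1 : ∀ t, |u t| ≤ 1)
    (hsupp : ∀ t, (t ≤ 1 / 10 ∨ 9 / 10 ≤ t) → u t = 0) {C r : ℝ}
    (hφ2 : ∀ (s : ℕ) (t : ℝ), ∑ c ∈ range (2 ^ s), |φ s c t| ≤ C * (2 : ℝ) ^ (r * s))
    (s : ℕ) (y : ℝ) : ∫ x, |G1 u φ s x y| ∂tor1 ≤ C * (2 : ℝ) ^ (r * s) / 2 ^ s := by
  have := Helper3.SB.isProb_tor1
  have hint : ∀ c, Integrable (fun x => |ub u s c x|) tor1 := fun c =>
    Integrable.of_bound (hub s c).abs.aestronglyMeasurable 1
      (Filter.Eventually.of_forall fun x => by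
        rw [Real.norm_eq_abs, abs_abs]; exact abs_ub_le hu1 s c x)
  have h1 : ∫ x, |G1 u φ s x y| ∂tor1 ≤
      ∫ x, ∑ c ∈ range (2 ^ s), |ub u s c x| * |φ s c y| ∂tor1 := by
    apply integral_mono_of_nonneg
    · exact Filter.Eventually.of_forall fun t => abs_nonneg _
    · exact integrable_finsetSum _ fun c _ => (hint c).mul_const _
    · refine Filter.Eventually.of_forall fun x => ?_
      show |G1 u φ s x y| ≤ _
      unfold G1
      refine (Finset.abs_sum_le_sum_abs _ _).trans (Finset.sum_le_sum fun c _ => ?_)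
      rw [abs_mul]
  refine h1.trans ?_
  rw [integral_finsetSum _ fun c _ => (hint c).mul_const _]
  calc ∑ c ∈ range (2 ^ s), ∫ x, |ub u s c x| * |φ s c y| ∂tor1
      ≤ ∑ c ∈ range (2 ^ s), 1 / 2 ^ s * |φ s c y| := by
        refine Finset.sum_le_sum fun c hc => ?_
        rw [integral_mul_const]
        gcongr
        exact integral_abs_ub hu hu1 hsupp s c (Finset.mem_range.1 hc)
    _ = (∑ c ∈ range (2 ^ s), |φ s c y|) / 2 ^ s := by
        rw [← Finset.mul_sum]; ring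
    _ ≤ _ := by
        gcongr
        exact hφ2 s y

lemma integral_G1 (hub : ∀ s c, Continuous (ub u s c)) (hu : Continuous u)
    (hu1 : ∀ t, |u t| ≤ 1)
    (hsupp : ∀ t, (t ≤ 1 / 10 ∨ 9 / 10 ≤ t) → u t = 0) (hint : ∫ t, u t = 0)
    (s : ℕ) (y : ℝ) : ∫ x, G1 u φ s x y ∂tor1 = 0 := by
  have := Helper3.SB.isProb_tor1
  unfold G1
  rw [integral_finsetSum _ fun c _ => (Integrable.of_bound (hub s c).aestronglyMeasurable 1
    (Filter.Eventually.of_forall fun x => abs_ub_le hu1 s c x)).mul_const _]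
  refine Finset.sum_eq_zero fun c hc => ?_
  rw [integral_mul_const]
  have h := integral_ub_pow u hu hsupp 1 le_rfl s c (Finset.mem_range.1 hc)
  simp_rw [pow_one] at h
  rw [h, hint]; simp

lemma integral_Zf {d : ℕ} (hd : 1 ≤ d) (hub : ∀ s c, Continuous (ub u s c)) (hu : Continuous u)
    (hu1 : ∀ t, |u t| ≤ 1)
    (hsupp : ∀ t, (t ≤ 1 / 10 ∨ 9 / 10 ≤ t) → u t = 0) (hint : ∫ t, u t = 0)
    (Sh : Finset (Fin d → ℕ)) (y : Fin d → ℝ) : ∫ x, Zf u φ Sh y x ∂(tor d) = 0 := by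
  have := Helper3.SB.isProb_tor1
  unfold Zf
  rw [integral_finsetSum]
  · refine Finset.sum_eq_zero fun s _ => ?_
    unfold tor
    rw [integral_fintype_prod_eq_prod (fun j z => G1 u φ (s j) z (y j))]
    apply Finset.prod_eq_zero (Finset.mem_univ (⟨0, by omega⟩ : Fin d))
    exact integral_G1 hub hu hu1 hsupp hint _ _
  · intro s _
    unfold tor
    exact Integrable.fintype_prod_dep (f := fun j z => G1 u φ (s j) z (y j)) fun j => by
      unfold G1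
      exact integrable_finsetSum _ fun c _ =>
        (Integrable.of_bound (hub _ c).aestronglyMeasurable 1
          (Filter.Eventually.of_forall fun x => abs_ub_le hu1 _ c x)).mul_const _

/-- `∏ C 2^(r s_j)` -/
lemma prod_A {d : ℕ} (C r : ℝ) (s : Fin d → ℕ) :
    ∏ j, C * (2 : ℝ) ^ (r * s j) = C ^ d * (2 : ℝ) ^ (r * ((∑ j, s j : ℕ) : ℝ)) := by
  rw [Finset.prod_mul_distrib, Finset.prod_const, Finset.card_univ, Fintype.card_fin]
  congr 1
  rw [← Real.rpow_sum_of_pos (by norm_num : (0:ℝ) < 2)]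
  congr 1
  push_cast
  rw [Finset.mul_sum]

lemma prod_half {d : ℕ} (s : Fin d → ℕ) :
    ∏ j, (2 : ℝ) ^ ((s j : ℝ) / 2) = (2 : ℝ) ^ (((∑ j, s j : ℕ) : ℝ) / 2) := by
  rw [← Real.rpow_sum_of_pos (by norm_num : (0:ℝ) < 2)]
  congr 1
  push_cast
  rw [Finset.sum_div]

/-- comparison with the sums of L12 -/
lemma sum_A_le {e m₀ m₁ : ℕ} {C r : ℝ} (hC : 0 < C) (hr2 : r ≤ 1 / 2)
    (t : Fin (e + 1) → ℕ) :
    ∑ s ∈ (Shp e m₀ m₁).filter (fun s => ∀ j, s j ≤ t j), ∏ j, C * (2 : ℝ) ^ (r * s j) ≤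
      C ^ (e + 1) * (2 : ℝ) ^ (-((1 / 2 - r) * m₀)) *
      ∑ s ∈ (Shp e m₀ m₁).filter (fun s => ∀ j, s j ≤ t j), ∏ j, (2 : ℝ) ^ ((s j : ℝ) / 2) := by
  rw [Finset.mul_sum]
  refine Finset.sum_le_sum fun s hs => ?_
  rw [Finset.mem_filter] at hs
  have hs1 := hs.1
  unfold Shp at hs1
  rw [Finset.mem_filter] at hs1
  have hm : (m₀ : ℝ) ≤ ((∑ j, s j : ℕ) : ℝ) := by exact_mod_cast hs1.2.1
  rw [prod_A, prod_half, mul_assoc, ← Real.rpow_add (by norm_num : (0:ℝ) < 2)]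
  refine mul_le_mul_of_nonneg_left ?_ (by positivity)
  apply Real.rpow_le_rpow_of_exponent_le (by norm_num)
  nlinarith

/-- the moments of `Z_y` -/
lemma moment_Zf {e m₀ m₁ : ℕ} (hub : ∀ s c, Continuous (ub u s c)) (hu : Continuous u)
    (hu1 : ∀ t, |u t| ≤ 1)
    (hsupp : ∀ t, (t ≤ 1 / 10 ∨ 9 / 10 ≤ t) → u t = 0) {C r : ℝ} (hC : 0 < C)
    (hr2 : r ≤ 1 / 2)
    (hφ2 : ∀ (s : ℕ) (t : ℝ), ∑ c ∈ range (2 ^ s), |φ s c t| ≤ C * (2 : ℝ) ^ (r * s))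
    (q : ℕ) (hq : 1 ≤ q) (y : Fin (e + 1) → ℝ) :
    ∫ x, |Zf u φ (Shp e m₀ m₁) y x| ^ q ∂(tor (e + 1)) ≤
      (C ^ (e + 1) * (2 : ℝ) ^ (-((1 / 2 - r) * m₀))) ^ q *
      ∑ t ∈ Fintype.piFinset (fun _ : Fin (e + 1) => range (m₁ + 1)),
        (∑ s ∈ (Shp e m₀ m₁).filter (fun s => ∀ j, s j ≤ t j),
          ∏ j, (2 : ℝ) ^ ((s j : ℝ) / 2)) ^ q / 2 ^ (∑ j, t j) := by
  have h := tuple_moment (d := e + 1) q m₁ hq (Shp e m₀ m₁) (by
      intro s hs j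
      unfold Shp at hs
      rw [Finset.mem_filter, Fintype.mem_piFinset] at hs
      have := hs.1 j
      rw [Finset.mem_range] at this
      omega)
    (fun j s x => G1 u φ s x (y j))
    (fun j s => (continuous_G1_left hub s (y j)).measurable)
    (fun s => C * (2 : ℝ) ^ (r * s))
    (fun j s x => abs_G1_le hu1 hφ2 s x (y j))
    (fun j s => integral_abs_G1 hub hu hu1 hsupp hφ2 s (y j))
  refine h.trans ?_
  rw [Finset.mul_sum]
  refine Finset.sum_le_sum fun t _ => ?_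
  rw [← mul_div_assoc, ← mul_pow]
  gcongr
  exact sum_A_le hC hr2 t

lemma abs_Zf_le {d : ℕ} (hu1 : ∀ t, |u t| ≤ 1) {C r : ℝ}
    (hφ2 : ∀ (s : ℕ) (t : ℝ), ∑ c ∈ range (2 ^ s), |φ s c t| ≤ C * (2 : ℝ) ^ (r * s))
    (Sh : Finset (Fin d → ℕ)) (y x : Fin d → ℝ) :
    |Zf u φ Sh y x| ≤ ∑ s ∈ Sh, ∏ j, C * (2 : ℝ) ^ (r * s j) := by
  unfold Zf
  refine (Finset.abs_sum_le_sum_abs _ _).trans (Finset.sum_le_sum fun s _ => ?_)
  rw [Finset.abs_prod]
  exact Finset.prod_le_prod (fun j _ => abs_nonneg _) fun j _ => abs_G1_le hu1 hφ2 _ _ _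

/-- arithmetic of the moment bound -/
lemma moment_arith (b : ℕ) (hb : 2 ≤ b) {c0 E N P D C2 C3 C4 c B₁ m L M1 T2 Tb I2 Ib : ℝ} (e : ℕ)
    (hE : 0 < E) (hN : 0 < N) (hD : 0 < D) (hC2 : 0 < C2) (hC3 : 0 < C3)
    (hC4 : 0 < C4) (hc : 0 < c) (hB : 0 < B₁) (hm : 1 ≤ m) (hL : 1 ≤ L)
    (hP : c * L * m ^ e ≤ P) (hM1 : 0 < M1) (hM : M1 ≤ B₁ * N * m ^ e)
    (hT2 : T2 ≤ C2 * L * (m + 1) ^ e) (hTb : Tb ≤ C3 * (m + 1) ^ e * M1 ^ (b - 1))
    (hI2 : I2 ≤ (D * E⁻¹) ^ 2 * T2) (hIb : Ib ≤ (D * E⁻¹) ^ (2 * b) * Tb) (hI2' : 0 ≤ I2) :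
    (c0 * E / Real.sqrt (N * P)) ^ (2 * b) * (C4 * (N * Ib + (N * I2) ^ b)) ≤
      C4 * (D ^ 2) ^ b * (C3 * 2 ^ e * B₁ ^ (b - 1) / c ^ b + (C2 * 2 ^ e / c) ^ b) *
        c0 ^ (2 * b) := by
  have hme : 0 < m ^ e := by positivity
  have hm2 : (m + 1) ^ e ≤ 2 ^ e * m ^ e := by
    rw [← mul_pow]
    exact pow_le_pow_left₀ (by linarith) (by linarith) e
  have hP1 : c * m ^ e ≤ P := by
    refine le_trans ?_ hP
    have : c * m ^ e ≤ c * m ^ e * L := le_mul_of_one_le_right (by positivity) hL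
    linarith [this]
  have hP0 : 0 < P := lt_of_lt_of_le (by positivity) hP1
  have hNP : 0 < N * P := by positivity
  have hw : (c0 * E / Real.sqrt (N * P)) ^ (2 * b) = c0 ^ (2 * b) * ((E ^ 2) / (N * P)) ^ b := by
    rw [pow_mul, div_pow, Real.sq_sqrt hNP.le, mul_pow, mul_div_assoc, mul_pow, ← pow_mul]
  rw [hw]
  have hc0 : 0 ≤ c0 ^ (2 * b) := by rw [pow_mul]; positivity
  -- second term
  have h2 : (E ^ 2 / (N * P)) ^ b * (N * I2) ^ b ≤ (D ^ 2) ^ b * (C2 * 2 ^ e / c) ^ b := by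
    rw [← mul_pow, ← mul_pow]
    apply pow_le_pow_left₀ (by positivity)
    have h3 : I2 ≤ (D * E⁻¹) ^ 2 * (C2 * L * (2 ^ e * m ^ e)) := by
      refine hI2.trans ?_
      gcongr
      refine hT2.trans ?_
      gcongr
    have h4 : E ^ 2 / (N * P) * (N * I2) = E ^ 2 * I2 / P := by field_simp
    rw [h4, div_le_iff₀ hP0]
    calc E ^ 2 * I2 ≤ E ^ 2 * ((D * E⁻¹) ^ 2 * (C2 * L * (2 ^ e * m ^ e))) := by gcongr
      _ = D ^ 2 * (C2 * 2 ^ e / c) * (c * L * m ^ e) := by field_simp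
      _ ≤ D ^ 2 * (C2 * 2 ^ e / c) * P := by gcongr
  -- first term
  have h1 : (E ^ 2 / (N * P)) ^ b * (N * Ib) ≤
      (D ^ 2) ^ b * (C3 * 2 ^ e * B₁ ^ (b - 1) / c ^ b) := by
    have h3 : Ib ≤ (D * E⁻¹) ^ (2 * b) * (C3 * (2 ^ e * m ^ e) * (B₁ * N * m ^ e) ^ (b - 1)) := by
      refine hIb.trans ?_
      gcongr
      refine hTb.trans ?_
      gcongr
    obtain ⟨k, rfl⟩ : ∃ k, b = k + 1 := ⟨b - 1, by omega⟩
    rw [Nat.add_sub_cancel] at h3 ⊢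
    rw [div_pow, div_mul_eq_mul_div, div_le_iff₀ (by positivity)]
    calc (E ^ 2) ^ (k + 1) * (N * Ib)
        ≤ (E ^ 2) ^ (k + 1) * (N * ((D * E⁻¹) ^ (2 * (k + 1)) *
            (C3 * (2 ^ e * m ^ e) * (B₁ * N * m ^ e) ^ k))) := by gcongr
      _ = (D ^ 2) ^ (k + 1) * (C3 * 2 ^ e * B₁ ^ k / c ^ (k + 1)) * (N * (c * m ^ e)) ^ (k + 1) := by
          rw [mul_pow D, inv_pow, pow_mul E]
          field_simp
          ring
      _ ≤ (D ^ 2) ^ (k + 1) * (C3 * 2 ^ e * B₁ ^ k / c ^ (k + 1)) * (N * P) ^ (k + 1) := by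
          gcongr
  calc c0 ^ (2 * b) * (E ^ 2 / (N * P)) ^ b * (C4 * (N * Ib + (N * I2) ^ b))
      = c0 ^ (2 * b) * C4 * ((E ^ 2 / (N * P)) ^ b * (N * Ib) +
          (E ^ 2 / (N * P)) ^ b * (N * I2) ^ b) := by ring
    _ ≤ c0 ^ (2 * b) * C4 * ((D ^ 2) ^ b * (C3 * 2 ^ e * B₁ ^ (b - 1) / c ^ b) +
          (D ^ 2) ^ b * (C2 * 2 ^ e / c) ^ b) := by gcongr
    _ = _ := by ring

/-- the fibre moment -/
lemma fiber_moment (e b : ℕ) (hb : 2 ≤ b) (hub : ∀ s c, Continuous (ub u s c)) (hu : Continuous u)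
    (hu1 : ∀ t, |u t| ≤ 1)
    (hsupp : ∀ t, (t ≤ 1 / 10 ∨ 9 / 10 ≤ t) → u t = 0) (hint : ∫ t, u t = 0) {C r : ℝ}
    (hC : 0 < C) (hr2 : r ≤ 1 / 2)
    (hφ2 : ∀ (s : ℕ) (t : ℝ), ∑ c ∈ range (2 ^ s), |φ s c t| ≤ C * (2 : ℝ) ^ (r * s))
    (B₁ : ℝ) (hB₁ : 0 < B₁) :
    ∃ K > 0, ∀ m₀ m₁ N : ℕ, 1 ≤ m₁ → m₀ ≤ m₁ → m₁ ≤ 2 * m₀ → 0 < N →
      (2 : ℝ) ^ m₁ ≤ B₁ * N * (m₁ : ℝ) ^ e → ∀ (c0 : ℝ) (y : Fin (e + 1) → ℝ),
      ∫ X : Fin N → Fin (e + 1) → ℝ, (c0 * (2 : ℝ) ^ ((1 / 2 - r) * m₀) /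
          Real.sqrt (N * (Shp e m₀ m₁).card) * ∑ i, Zf u φ (Shp e m₀ m₁) y (X i)) ^ (2 * b)
        ∂(Measure.pi fun _ : Fin N => tor (e + 1)) ≤ K * c0 ^ (2 * b) := by
  have := Helper3.SB.isProb_tor (e + 1)
  obtain ⟨c, hc, hcard⟩ := card_Shp_lower e
  obtain ⟨C2, hC2, hT2⟩ := sum_t_two e
  obtain ⟨C3, hC3, hTb⟩ := sum_t_pow e b hb
  obtain ⟨C4, hC4, hros⟩ := rosenthal b (by omega)
  refine ⟨C4 * ((C ^ (e + 1)) ^ 2) ^ b *
    (C3 * 2 ^ e * B₁ ^ (b - 1) / c ^ b + (C2 * 2 ^ e / c) ^ b), by positivity, ?_⟩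
  intro m₀ m₁ N hm1 h01 h10 hN hM c0 y
  have hm1' : (1:ℝ) ≤ m₁ := by exact_mod_cast hm1
  set Sh := Shp e m₀ m₁ with hSh
  set Z : (Fin (e + 1) → ℝ) → ℝ := fun x => Zf u φ Sh y x with hZ
  have hZc : Continuous Z := continuous_Zf_right hub Sh y
  have hR := hros (Fin (e + 1) → ℝ) (tor (e + 1)) Z hZc.measurable _
    (fun x => abs_Zf_le hu1 hφ2 Sh y x)
    (integral_Zf (by omega) hub hu hu1 hsupp hint Sh y) N
  have h2 := moment_Zf (m₀ := m₀) (m₁ := m₁) hub hu hu1 hsupp hC hr2 hφ2 2 (by norm_num) y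
  have hb2 := moment_Zf (m₀ := m₀) (m₁ := m₁) hub hu hu1 hsupp hC hr2 hφ2 (2 * b) (by omega) y
  have e2 : ∀ x, |Zf u φ Sh y x| ^ 2 = Z x ^ 2 := fun x => sq_abs _
  have eb : ∀ x, |Zf u φ Sh y x| ^ (2 * b) = Z x ^ (2 * b) := fun x => by
    rw [pow_mul, sq_abs, ← pow_mul]
  rw [← hSh] at h2 hb2
  simp_rw [e2] at h2
  simp_rw [eb] at hb2
  have hEinv : (2 : ℝ) ^ (-((1 / 2 - r) * m₀)) = ((2 : ℝ) ^ ((1 / 2 - r) * m₀))⁻¹ :=
    Real.rpow_neg (by norm_num) _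
  rw [hEinv] at h2 hb2
  simp_rw [mul_pow (c0 * _ / _)]
  rw [integral_const_mul]
  have hI2' : 0 ≤ ∫ x, Z x ^ 2 ∂(tor (e + 1)) := integral_nonneg fun x => sq_nonneg _
  have hTb' := hTb m₀ m₁ h01
  rw [mul_comm (b - 1) m₁, pow_mul] at hTb'
  refine le_trans (mul_le_mul_of_nonneg_left hR (by rw [pow_mul]; positivity)) ?_
  exact moment_arith b hb (P := (Sh.card : ℝ)) e (by positivity) (by exact_mod_cast hN)
    (by positivity) hC2 hC3 hC4 hc hB₁ hm1' (L := ((m₁ - m₀ + 1 : ℕ) : ℝ))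
    (by exact_mod_cast (by omega : 1 ≤ m₁ - m₀ + 1)) (hcard m₀ m₁ h01 h10) (by positivity) hM
    (hT2 m₀ m₁ h01) hTb' h2 hb2 hI2'

end moments

section assembly

variable {u : ℝ → ℝ} {φ : ℕ → ℕ → ℝ → ℝ}

/-- the density of the random function -/
noncomputable def psi {d N : ℕ} (u : ℝ → ℝ) (φ : ℕ → ℕ → ℝ → ℝ) (Sh : Finset (Fin d → ℕ)) (w : ℝ)
    (X : Fin N → Fin d → ℝ) (y : Fin d → ℝ) : ℝ := w * ∑ i, Zf u φ Sh y (X i)

lemma continuous_psi {d N : ℕ} (hub : ∀ s c, Continuous (ub u s c))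
    (hφ : ∀ s c, Continuous (φ s c)) (Sh : Finset (Fin d → ℕ)) (w : ℝ) :
    Continuous fun p : (Fin N → Fin d → ℝ) × (Fin d → ℝ) => psi u φ Sh w p.1 p.2 := by
  unfold psi
  refine continuous_const.mul (continuous_finsetSum _ fun i _ => ?_)
  have h : Continuous fun p : (Fin N → Fin d → ℝ) × (Fin d → ℝ) => (p.2, p.1 i) := by fun_prop
  have h2 : Continuous ((fun q : (Fin d → ℝ) × (Fin d → ℝ) => Zf u φ Sh q.1 q.2) ∘
    (fun p : (Fin N → Fin d → ℝ) × (Fin d → ℝ) => (p.2, p.1 i))) :=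
    Continuous.comp (continuous_Zf hub hφ Sh) h
  exact h2

lemma continuous_psi_right {d N : ℕ}
    (hφ : ∀ s c, Continuous (φ s c)) (Sh : Finset (Fin d → ℕ)) (w : ℝ)
    (X : Fin N → Fin d → ℝ) : Continuous (psi u φ Sh w X) := by
  unfold psi
  exact continuous_const.mul (continuous_finsetSum _ fun i _ => continuous_Zf_left hφ Sh (X i))

lemma abs_psi_le {d N : ℕ} (hu1 : ∀ t, |u t| ≤ 1) {C r : ℝ}
    (hφ2 : ∀ (s : ℕ) (t : ℝ), ∑ c ∈ range (2 ^ s), |φ s c t| ≤ C * (2 : ℝ) ^ (r * s))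
    (Sh : Finset (Fin d → ℕ)) (w : ℝ) (X : Fin N → Fin d → ℝ) (y : Fin d → ℝ) :
    |psi u φ Sh w X y| ≤ |w| * (N * ∑ s ∈ Sh, ∏ j, C * (2 : ℝ) ^ (r * s j)) := by
  unfold psi
  rw [abs_mul]
  gcongr
  refine (Finset.abs_sum_le_sum_abs _ _).trans ?_
  calc ∑ i, |Zf u φ Sh y (X i)| ≤ ∑ _i : Fin N, ∑ s ∈ Sh, ∏ j, C * (2 : ℝ) ^ (r * s j) :=
        Finset.sum_le_sum fun i _ => abs_Zf_le hu1 hφ2 Sh y (X i)
    _ = _ := by rw [Finset.sum_const, Finset.card_univ, Fintype.card_fin, nsmul_eq_mul]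

lemma mem_W_of {d N b : ℕ} (hb : 1 ≤ b)
    (hu1 : ∀ t, |u t| ≤ 1)
    (hφ : ∀ s c, Continuous (φ s c)) {C r : ℝ} (hr : 0 < r)
    (hφ1 : ∀ s c, c < 2 ^ s → ∀ x, ∫ y, bern r r (x - y) * φ s c y ∂tor1 = ub u s c x)
    (hφ2 : ∀ (s : ℕ) (t : ℝ), ∑ c ∈ range (2 ^ s), |φ s c t| ≤ C * (2 : ℝ) ^ (r * s))
    (𝕜 : Type) [RCLike 𝕜] (p : ℝ≥0∞) (hp : p ≤ ((2 * b : ℕ) : ℝ≥0∞))
    (Sh : Finset (Fin d → ℕ)) (w : ℝ) (X : Fin N → Fin d → ℝ)
    (hX : ∫ y, psi u φ Sh w X y ^ (2 * b) ∂(tor d) ≤ 1) :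
    (fun x => ((w * ∑ i, kb u Sh (X i) x : ℝ) : 𝕜)) ∈ Wclass d 𝕜 r p := by
  have := Helper3.SB.isProb_tor d
  have hψc : Continuous (psi u φ Sh w X) := continuous_psi_right hφ Sh w X
  have hψm : AEStronglyMeasurable (fun y => (psi u φ Sh w X y : 𝕜)) (tor d) :=
    (RCLike.continuous_ofReal.comp hψc).aestronglyMeasurable
  have hψL : MemLp (psi u φ Sh w X) ((2 * b : ℕ) : ℝ≥0∞) (tor d) :=
    MemLp.of_bound hψc.aestronglyMeasurable _
      (Filter.Eventually.of_forall fun y => abs_psi_le hu1 hφ2 Sh w X y)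
  have hnorm : eLpNorm (fun y => (psi u φ Sh w X y : 𝕜)) p (tor d) ≤ 1 := by
    calc eLpNorm (fun y => (psi u φ Sh w X y : 𝕜)) p (tor d) ≤
        eLpNorm (fun y => (psi u φ Sh w X y : 𝕜)) ((2 * b : ℕ) : ℝ≥0∞) (tor d) :=
          eLpNorm_le_eLpNorm_of_exponent_le hp hψm
      _ = eLpNorm (psi u φ Sh w X) ((2 * b : ℕ) : ℝ≥0∞) (tor d) := by
          apply eLpNorm_congr_norm_ae
          refine Filter.Eventually.of_forall fun y => ?_
          show ‖(psi u φ Sh w X y : 𝕜)‖ = ‖psi u φ Sh w X y‖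
          rw [RCLike.norm_ofReal, Real.norm_eq_abs]
      _ ≤ 1 := by
          rw [MemLp.eLpNorm_eq_integral_rpow_norm (by
            have : (2 * b : ℕ) ≠ 0 := by omega
            exact_mod_cast this) (ENNReal.natCast_ne_top _) hψL]
          rw [ENNReal.toReal_natCast]
          have h1 : ∀ y, ‖psi u φ Sh w X y‖ ^ ((2 * b : ℕ) : ℝ) = psi u φ Sh w X y ^ (2 * b) := by
            intro y
            rw [Real.rpow_natCast, Real.norm_eq_abs, pow_mul, sq_abs, ← pow_mul]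
          simp_rw [h1]
          rw [← ENNReal.ofReal_one]
          apply ENNReal.ofReal_le_ofReal
          apply Real.rpow_le_one _ hX (by positivity)
          exact integral_nonneg fun y => by
            show 0 ≤ psi u φ Sh w X y ^ (2 * b)
            rw [pow_mul]; positivity
  refine ⟨fun y => (psi u φ Sh w X y : 𝕜), ⟨hψm, hnorm.trans_lt ENNReal.one_lt_top⟩, hnorm, ?_⟩
  funext x
  have h3 : ∀ y : Fin d → ℝ, (Fker r (x - y) : 𝕜) * (psi u φ Sh w X y : 𝕜) =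
      ((Fker r (x - y) * psi u φ Sh w X y : ℝ) : 𝕜) := by
    intro y
    push_cast
    rfl
  simp_rw [h3]
  rw [integral_ofReal]
  congr 1
  have h4 : ∀ y : Fin d → ℝ, Fker r (x - y) * psi u φ Sh w X y =
      w * ∑ i, Fker r (x - y) * Zf u φ Sh y (X i) := by
    intro y
    unfold psi
    rw [mul_left_comm, Finset.mul_sum]
  simp_rw [h4]
  rw [integral_const_mul, integral_finsetSum _ fun i _ => integrable_FZ r hr hφ Sh (X i) x]
  simp_rw [conv_Z r hr hφ hφ1]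

lemma kb_periodic {d : ℕ} (Sh : Finset (Fin d → ℕ)) (X x : Fin d → ℝ) (j : Fin d) :
    kb u Sh X (Function.update x j (x j + 2 * π)) = kb u Sh X x := by
  unfold kb
  refine Finset.sum_congr rfl fun s _ => Finset.prod_congr rfl fun i _ => ?_
  by_cases h : i = j
  · subst h
    rw [Function.update_self]
    unfold kb1
    exact Finset.sum_congr rfl fun c _ => by rw [ub_periodic]
  · rw [Function.update_of_ne h]

/-- the moment of the density, integrated over the positions -/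
lemma total_moment (e b N : ℕ) (hub : ∀ s c, Continuous (ub u s c))
    (hu1 : ∀ t, |u t| ≤ 1) (hφ : ∀ s c, Continuous (φ s c)) {C r : ℝ}
    (hφ2 : ∀ (s : ℕ) (t : ℝ), ∑ c ∈ range (2 ^ s), |φ s c t| ≤ C * (2 : ℝ) ^ (r * s))
    (Sh : Finset (Fin (e + 1) → ℕ)) (w B : ℝ)
    (h : ∀ y, ∫ X : Fin N → Fin (e + 1) → ℝ, psi u φ Sh w X y ^ (2 * b)
      ∂(Measure.pi fun _ : Fin N => tor (e + 1)) ≤ B) :
    Integrable (fun X : Fin N → Fin (e + 1) → ℝ =>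
      ∫ y, psi u φ Sh w X y ^ (2 * b) ∂(tor (e + 1))) (Measure.pi fun _ : Fin N => tor (e + 1)) ∧
    ∫ X : Fin N → Fin (e + 1) → ℝ, ∫ y, psi u φ Sh w X y ^ (2 * b) ∂(tor (e + 1))
      ∂(Measure.pi fun _ : Fin N => tor (e + 1)) ≤ B := by
  have := Helper3.SB.isProb_tor (e + 1)
  set P : Measure (Fin N → Fin (e + 1) → ℝ) := Measure.pi fun _ : Fin N => tor (e + 1) with hP
  have hc : Continuous fun p : (Fin N → Fin (e + 1) → ℝ) × (Fin (e + 1) → ℝ) =>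
      psi u φ Sh w p.1 p.2 ^ (2 * b) := (continuous_psi hub hφ Sh w).pow _
  have hi : Integrable (fun p : (Fin N → Fin (e + 1) → ℝ) × (Fin (e + 1) → ℝ) =>
      psi u φ Sh w p.1 p.2 ^ (2 * b)) (P.prod (tor (e + 1))) := by
    refine Integrable.of_bound hc.aestronglyMeasurable
      ((|w| * (N * ∑ s ∈ Sh, ∏ j, C * (2 : ℝ) ^ (r * s j))) ^ (2 * b))
      (Filter.Eventually.of_forall fun p => ?_)
    rw [norm_pow, Real.norm_eq_abs]
    exact pow_le_pow_left₀ (abs_nonneg _) (abs_psi_le hu1 hφ2 Sh w p.1 p.2) _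
  refine ⟨hi.integral_prod_left, ?_⟩
  rw [integral_integral_swap hi]
  calc ∫ y, ∫ X, psi u φ Sh w X y ^ (2 * b) ∂P ∂(tor (e + 1))
      ≤ ∫ _y : Fin (e + 1) → ℝ, B ∂(tor (e + 1)) :=
        integral_mono hi.integral_prod_right (integrable_const _) h
    _ = B := by simp

lemma block_sq_pos {u : ℝ → ℝ} (hu : Continuous u)
    (hsupp : ∀ t, (t ≤ 1 / 10 ∨ 9 / 10 ≤ t) → u t = 0)
    (hpl : ∀ t, 7 / 12 ≤ t → t ≤ 2 / 3 → 1 / 3 ≤ u t) : 0 < ∫ t, u t ^ 2 := by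
  have h1 : HasCompactSupport fun t => u t ^ 2 := by
    refine HasCompactSupport.intro (K := Set.Icc (1 / 10) (9 / 10)) isCompact_Icc fun t ht => ?_
    have : u t = 0 := by
      apply hsupp
      by_contra hcon
      push Not at hcon
      exact ht ⟨hcon.1.le, hcon.2.le⟩
    rw [this]; simp
  refine Continuous.integral_pos_of_hasCompactSupport_nonneg_nonzero (x := 2 / 3) (hu.pow 2) h1
    (fun t => sq_nonneg _) ?_
  have := hpl (2 / 3) (by norm_num) le_rfl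
  have h3 : 0 < u (2 / 3) := by linarith
  positivity

/-- the contradiction: close functions have a large mixed energy -/
lemma close_energy {d N : ℕ} {𝕜 : Type} [RCLike 𝕜] (Sh : Finset (Fin d → ℕ)) (w κ : ℝ)
    (hw : 0 < w) (hκ : 0 ≤ κ)
    (X Y : Fin N → Fin d → ℝ)
    (hX : |∑ i, ∑ j, kb u Sh (X i) (X j) - N * κ| ≤ 1 / 16 * N * κ)
    (h : ∀ x, ‖((w * ∑ i, kb u Sh (X i) x : ℝ) : 𝕜) - ((w * ∑ i, kb u Sh (Y i) x : ℝ) : 𝕜)‖ ≤
      2 * (w * κ / 8)) :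
    N * κ / 2 ≤ ∑ i, ∑ j, kb u Sh (X i) (Y j) := by
  have h1 : ∀ i, w * (∑ j, kb u Sh (X j) (X i) - ∑ j, kb u Sh (Y j) (X i)) ≤ w * κ / 4 := by
    intro i
    have h2 := h (X i)
    rw [← RCLike.ofReal_sub, RCLike.norm_ofReal] at h2
    have h3 := le_abs_self (w * ∑ j, kb u Sh (X j) (X i) - w * ∑ j, kb u Sh (Y j) (X i))
    calc w * (∑ j, kb u Sh (X j) (X i) - ∑ j, kb u Sh (Y j) (X i))
        = w * ∑ j, kb u Sh (X j) (X i) - w * ∑ j, kb u Sh (Y j) (X i) := by ring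
      _ ≤ 2 * (w * κ / 8) := h3.trans h2
      _ = w * κ / 4 := by ring
  have h4 : ∀ i, ∑ j, kb u Sh (X j) (X i) - ∑ j, kb u Sh (Y j) (X i) ≤ κ / 4 := by
    intro i
    have := h1 i
    have h5 : w * κ / 4 = w * (κ / 4) := by ring
    rw [h5] at this
    exact le_of_mul_le_mul_left this hw
  have h6 : ∑ i, (∑ j, kb u Sh (X j) (X i) - ∑ j, kb u Sh (Y j) (X i)) ≤ ∑ _i : Fin N, κ / 4 :=
    Finset.sum_le_sum fun i _ => h4 i
  rw [Finset.sum_sub_distrib, Finset.sum_const, Finset.card_univ, Fintype.card_fin,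
    nsmul_eq_mul] at h6
  have h7 : ∑ i, ∑ j, kb u Sh (X j) (X i) = ∑ i, ∑ j, kb u Sh (X i) (X j) := Finset.sum_comm
  have h8 : ∑ i, ∑ j, kb u Sh (Y j) (X i) = ∑ i, ∑ j, kb u Sh (X i) (Y j) :=
    Finset.sum_congr rfl fun i _ => Finset.sum_congr rfl fun j _ => kb_symm u Sh _ _
  rw [h7, h8] at h6
  have h9 := (abs_le.1 hX).1
  have h10 : 0 ≤ (N : ℝ) * κ := by positivity
  nlinarith

theorem W_pack (e : ℕ) (he : 1 ≤ e) (r : ℝ) (hr : 0 < r) (hr2 : r ≤ 1 / 2) (𝕜 : Type)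
    [RCLike 𝕜] (p : ℝ≥0∞) (hp : p ≠ ⊤) (B₁ : ℝ) (hB₁ : 0 < B₁) :
    ∃ c > 0, ∃ m₂ : ℕ, ∀ m₀ m₁ N : ℕ, m₂ ≤ m₁ → m₀ ≤ m₁ → m₁ ≤ 2 * m₀ → m₂ ≤ N →
      (2 : ℝ) ^ m₁ ≤ B₁ * N * (m₁ : ℝ) ^ e →
      (N : ℝ) * m₁ ≤ B₁ * 2 ^ m₀ * ((m₁ - m₀ + 1 : ℕ) : ℝ) ^ 2 * (m₁ : ℝ) ^ e →
      ∀ n : ℕ, (n : ℝ) ≤ c * m₁ * N →
        ENNReal.ofReal (c * (2 : ℝ) ^ ((1 / 2 - r) * m₀) *
          Real.sqrt ((Shp e m₀ m₁).card / N)) ≤ entropyNumber n (Wclass (e + 1) 𝕜 r p) := by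
  have := Helper3.SB.isProb_tor (e + 1)
  obtain ⟨u, hu, hu1, -, -, hpl, hsupp, hint⟩ := Helper96.SB.exists_block
  obtain ⟨φ, C, hC, hφc, hφ1, hφ2⟩ := exists_uni_one u hu hsupp hint r r hr
  have huc : Continuous u := hu.continuous
  have hub : ∀ s c, Continuous (ub u s c) := ub_continuous u huc hsupp
  obtain ⟨b, hb, hpb⟩ : ∃ b : ℕ, 2 ≤ b ∧ p ≤ ((2 * b : ℕ) : ℝ≥0∞) := by
    obtain ⟨n, hn⟩ := ENNReal.exists_nat_gt hp
    refine ⟨n + 2, by omega, hn.le.trans ?_⟩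
    exact_mod_cast (by omega : n ≤ 2 * (n + 2))
  obtain ⟨K, hK, hmom⟩ := fiber_moment (φ := φ) e b hb hub huc hu1 hsupp hint hC hr2 hφ2 B₁ hB₁
  set ν : ℝ := ∫ t, u t ^ 2 with hν
  have hν0 : 0 < ν := block_sq_pos huc hsupp hpl
  obtain ⟨α, hα, m₂, hloc⟩ := Helper69.SB.kernel_location
    (fun u hu hsupp Sh => kb_continuous u hu hsupp Sh)
    (fun hd u hu hsupp hint Sh x => Helper23.SB.integral_kb hd u hu hsupp hint Sh x)
    (fun u hu hsupp Sh => Helper23.SB.integral_kb_diag u hu hsupp Sh)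
    (fun u hu1 hsupp Sh M hM x y => Helper75.SB.abs_kb_le u hu1 hsupp Sh M hM x y)
    (fun M x g hg => Helper75.SB.integral_lc_le M x g hg)
    e he u huc hu1 hsupp hint ν hν0 hν.symm B₁ hB₁
  obtain ⟨cS, hcS, hcard⟩ := card_Shp_lower e
  set c0 : ℝ := 1 / (10 * (K + 1)) with hc0
  have hc00 : 0 < c0 := by positivity
  have hc01 : c0 ≤ 1 := by
    rw [hc0, div_le_one (by positivity)]; linarith
  have hKc : K * c0 ^ (2 * b) ≤ 1 / 10 := by
    have h1 : c0 ^ (2 * b) ≤ c0 := by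
      calc c0 ^ (2 * b) ≤ c0 ^ 1 := pow_le_pow_of_le_one hc00.le hc01 (by omega)
        _ = c0 := pow_one _
    calc K * c0 ^ (2 * b) ≤ K * c0 := by gcongr
      _ ≤ 1 / 10 := by
        rw [hc0, mul_one_div, div_le_div_iff₀ (by positivity) (by norm_num)]
        linarith
  refine ⟨min (α / 16) (c0 * ν ^ (e + 1) / 8), by positivity,
    max m₂ (max 1 ⌈16 / α⌉₊), ?_⟩
  intro m₀ m₁ N hm1 h01 h10 hN hM hNm n hn
  have hm2 : m₂ ≤ m₁ := (le_max_left _ _).trans hm1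
  have hN2 : m₂ ≤ N := (le_max_left _ _).trans hN
  have hm1' : 1 ≤ m₁ := (le_max_left _ _).trans ((le_max_right _ _).trans hm1)
  have hN1 : 1 ≤ N := (le_max_left _ _).trans ((le_max_right _ _).trans hN)
  have hmα : 16 / α ≤ m₁ := (Nat.le_ceil _).trans (by
    exact_mod_cast (le_max_right _ _).trans ((le_max_right _ _).trans hm1))
  have hNr : (1:ℝ) ≤ N := by exact_mod_cast hN1
  have hm1r : (1:ℝ) ≤ m₁ := by exact_mod_cast hm1'
  set Sh := Shp e m₀ m₁ with hSh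
  have hcardpos : (0:ℝ) < Sh.card := by
    refine lt_of_lt_of_le ?_ (hcard m₀ m₁ h01 h10)
    have : (0:ℝ) < ((m₁ - m₀ + 1 : ℕ) : ℝ) := by positivity
    positivity
  obtain ⟨𝒯, h𝒯m, h𝒯P, h𝒯1, h𝒯2⟩ := hloc m₀ m₁ N hm2 h01 h10 hN2 hNm
  set P : Measure (Fin N → Fin (e + 1) → ℝ) := Measure.pi fun _ : Fin N => tor (e + 1) with hP
  set w : ℝ := c0 * (2 : ℝ) ^ ((1 / 2 - r) * m₀) / Real.sqrt (N * Sh.card) with hw
  have hw0 : 0 < w := by
    have : (0:ℝ) < Real.sqrt (N * Sh.card) := Real.sqrt_pos.2 (by positivity)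
    positivity
  set κ0 : ℝ := ν ^ (e + 1) * Sh.card with hκ0
  have hκ00 : 0 < κ0 := by positivity
  obtain ⟨hΦi, hΦ⟩ := total_moment e b N hub hu1 hφc hφ2 Sh w (K * c0 ^ (2 * b)) (fun y =>
    hmom m₀ m₁ N hm1' h01 h10 (by omega) hM c0 y)
  set Φ : (Fin N → Fin (e + 1) → ℝ) → ℝ := fun X =>
    ∫ y, psi u φ Sh w X y ^ (2 * b) ∂(tor (e + 1)) with hΦdef
  have hΦ0 : ∀ X, 0 ≤ Φ X := fun X => integral_nonneg fun y => by
    show 0 ≤ psi u φ Sh w X y ^ (2 * b)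
    rw [pow_mul]; positivity
  -- the good set
  set G : Set (Fin N → Fin (e + 1) → ℝ) := 𝒯 ∩ {X | Φ X ≤ 1} with hG
  have hmarkov : P.real {X | 1 ≤ Φ X} ≤ 1 / 10 := by
    have h1 := mul_meas_ge_le_integral_of_nonneg (μ := P) (Filter.Eventually.of_forall hΦ0) hΦi 1
    rw [one_mul] at h1
    exact h1.trans (hΦ.trans hKc)
  have hGP : 1 / 2 ≤ P.real G := by
    have h1 : P.real 𝒯 ≤ P.real (G ∪ {X | 1 ≤ Φ X}) := by
      refine measureReal_mono ?_ (measure_ne_top _ _)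
      intro X hX
      by_cases h : Φ X ≤ 1
      · exact Or.inl ⟨hX, h⟩
      · exact Or.inr (le_of_lt (not_le.1 h))
    have h2 := measureReal_union_le (μ := P) G {X | 1 ≤ Φ X}
    linarith
  set ε : ℝ := w * κ0 / 8 with hε
  have hε0 : 0 < ε := by positivity
  have hcont : ∀ X : Fin N → Fin (e + 1) → ℝ,
      Continuous fun x => ((w * ∑ i, kb u Sh (X i) x : ℝ) : 𝕜) := by
    intro X
    refine RCLike.continuous_ofReal.comp (continuous_const.mul (continuous_finsetSum _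
      fun i _ => ?_))
    have h : Continuous fun x : Fin (e + 1) → ℝ => (X i, x) := by fun_prop
    have h2 : Continuous ((fun z : (Fin (e + 1) → ℝ) × (Fin (e + 1) → ℝ) => kb u Sh z.1 z.2) ∘
      (fun x : Fin (e + 1) → ℝ => (X i, x))) := Continuous.comp (kb_continuous u huc hsupp Sh) h
    exact h2
  have hmain := entropy_of_packing (𝕜 := 𝕜) P
    (fun X x => ((w * ∑ i, kb u Sh (X i) x : ℝ) : 𝕜)) hcont
    (fun X x j => by
      show ((w * ∑ i, kb u Sh (X i) (Function.update x j (x j + 2 * π)) : ℝ) : 𝕜) =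
        ((w * ∑ i, kb u Sh (X i) x : ℝ) : 𝕜)
      simp_rw [kb_periodic])
    (Wclass (e + 1) 𝕜 r p) G hGP
    (fun X hX => mem_W_of (by omega) hu1 hφc hr hφ1 hφ2 𝕜 p hpb Sh w X hX.2)
    ε (Real.exp (-(α * m₁ * N / 8))) hε0 (by
      intro Y hY
      refine le_trans (measureReal_mono ?_) (h𝒯2 Y hY.1)
      intro X hX
      exact close_energy Sh w κ0 hw0 hκ00.le X Y (h𝒯1 X hX.1.1) hX.2)
    n (by
      have h1 : (2:ℝ) ^ n ≤ Real.exp n := by
        have h2 : (2:ℝ) ≤ Real.exp 1 := by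
          have := Real.add_one_le_exp 1; linarith
        calc (2:ℝ) ^ n ≤ (Real.exp 1) ^ n := pow_le_pow_left₀ (by norm_num) h2 n
          _ = Real.exp n := by rw [← Real.exp_nat_mul, mul_one]
      have h3 : (n : ℝ) ≤ α / 16 * m₁ * N := hn.trans (by
        gcongr
        exact min_le_left _ _)
      have h4 : 1 ≤ α / 16 * m₁ * N := by
        have h5 : 1 ≤ α / 16 * m₁ := by
          rw [div_le_iff₀ hα] at hmα
          linarith
        calc (1:ℝ) ≤ α / 16 * m₁ := h5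
          _ ≤ α / 16 * m₁ * N := le_mul_of_one_le_right (by positivity) hNr
      calc (2:ℝ) ^ n * Real.exp (-(α * m₁ * N / 8))
          ≤ Real.exp n * Real.exp (-(α * m₁ * N / 8)) := by gcongr
        _ = Real.exp (n - α * m₁ * N / 8) := by rw [← Real.exp_add, ← sub_eq_add_neg]
        _ ≤ Real.exp (-1) := by
            apply Real.exp_le_exp.2
            linarith
        _ < 1 / 2 := by
            rw [Real.exp_neg, inv_eq_one_div, div_lt_div_iff₀ (Real.exp_pos 1) (by norm_num)]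
            have := Real.exp_one_gt_d9
            linarith)
  refine le_trans (ENNReal.ofReal_le_ofReal ?_) hmain
  have hsq : Real.sqrt (Sh.card / N) * Real.sqrt (N * Sh.card) = Sh.card := by
    rw [← Real.sqrt_mul (by positivity)]
    have : (Sh.card : ℝ) / N * (N * Sh.card) = (Sh.card : ℝ) ^ 2 := by field_simp
    rw [this, Real.sqrt_sq (by positivity)]
  have hs0 : 0 < Real.sqrt (N * Sh.card) := Real.sqrt_pos.2 (by positivity)
  have hεeq : ε = c0 * ν ^ (e + 1) / 8 * (2 : ℝ) ^ ((1 / 2 - r) * m₀) *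
      Real.sqrt (Sh.card / N) := by
    have h1 : Real.sqrt (Sh.card / N) = Sh.card / Real.sqrt (N * Sh.card) := by
      rw [eq_div_iff hs0.ne', hsq]
    rw [h1, hε, hw, hκ0]
    ring
  rw [hεeq]
  gcongr
  exact min_le_right _ _

end assembly

end Pool.Agent.Helper83.SB
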